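import Mathlib
import Pool.Agent.NH58.YBTables

set_option autoImplicit false

/-!
# Finite simple solutions of the Yang-Baxter equation with `|Z| ∤ |Y|`

There are finite simple solutions of the Yang-Baxter equation on `X = Y × Z` for which the sets
`{y} × Z` are blocks of imprimitivity for the permutation group and `|Z|` does not divide `|Y|`:
one with `|Y| = 2`, `|Z| = 4` and one with `|Y| = 3`, `|Z| = 4` (here the orders are coprime).
-/

namespace Pool.Agent.Results.MP_9f168b_al.BlocksNotDividing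

/-- `r × id` on `X³`. -/
def r12 {X : Type} (r : X × X → X × X) (t : X × X × X) : X × X × X :=
  ((r (t.1, t.2.1)).1, (r (t.1, t.2.1)).2, t.2.2)

/-- `id × r` on `X³`. -/
def r23 {X : Type} (r : X × X → X × X) (t : X × X × X) : X × X × X :=
  (t.1, (r (t.2.1, t.2.2)).1, (r (t.2.1, t.2.2)).2)

/-- `(X, r)` is an involutive non-degenerate solution of the Yang-Baxter equation: `X` is non-empty,
`r₁₂ r₂₃ r₁₂ = r₂₃ r₁₂ r₂₃`, `r² = id` (so `r` is bijective), and in `r(x, y) = (σ_x(y), τ_y(x))`
all the maps `σ_x`, `τ_y` are bijections of `X`. -/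
structure IsSolution {X : Type} (r : X × X → X × X) : Prop where
  nonempty : Nonempty X
  braid : ∀ t : X × X × X, r12 r (r23 r (r12 r t)) = r23 r (r12 r (r23 r t))
  involutive : ∀ p : X × X, r (r p) = p
  sigma_bijective : ∀ x : X, Function.Bijective fun y => (r (x, y)).1
  tau_bijective : ∀ y : X, Function.Bijective fun x => (r (x, y)).2

/-- The permutation `σ_x` of `X`. -/
noncomputable def sigma {X : Type} {r : X × X → X × X} (h : IsSolution r) (x : X) :
    Equiv.Perm X :=
  Equiv.ofBijective _ (h.sigma_bijective x)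

/-- The permutation group `𝒢(X, r)`, generated by the permutations `σ_x`. -/
noncomputable def permGroup {X : Type} {r : X × X → X × X} (h : IsSolution r) :
    Subgroup (Equiv.Perm X) :=
  Subgroup.closure (Set.range (sigma h))

/-- `(X, r)` is simple: `X` has more than one element, and every epimorphism from `(X, r)` onto an
(involutive non-degenerate) solution `(X', r')` is bijective or has `|X'| = 1`. -/
def IsSimple {X : Type} (r : X × X → X × X) : Prop :=
  Nontrivial X ∧ ∀ (X' : Type) (r' : X' × X' → X' × X') (f : X → X'), IsSolution r' →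
    Function.Surjective f → (∀ p : X × X, Prod.map f f (r p) = r' (Prod.map f f p)) →
      Function.Bijective f ∨ Nat.card X' = 1

/-- The sets `X_y = {y} × Z` are blocks of imprimitivity: every element of `𝒢(X, r)` maps each of
them onto one of them. -/
def AreBlocks {Y Z : Type} {r : (Y × Z) × (Y × Z) → (Y × Z) × (Y × Z)} (h : IsSolution r) : Prop :=
  ∀ g ∈ permGroup h, ∀ y : Y, ∃ y' : Y, g '' {x | x.1 = y} = {x | x.1 = y'}

/-- There is a simple solution on `Y × Z` for which the sets `{y} × Z` are blocks of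
imprimitivity. -/
def HasSimpleSolution (Y Z : Type) : Prop :=
  ∃ (r : (Y × Z) × (Y × Z) → (Y × Z) × (Y × Z)) (h : IsSolution r), IsSimple r ∧ AreBlocks h

open Pool.Agent.NH58.YB

/-! ### Solutions from tables -/

section Table

variable {k : ℕ} {S T : List (List ℕ)} {W : List (List (List ℕ))} {V : List (List ℕ)}

/-- The code of a point of `Fin k × Fin 4`. -/
def cod {k : ℕ} (x : Fin k × Fin 4) : Fin (k * 4) := finProdFinEquiv x

theorem cod_val {k : ℕ} (x : Fin k × Fin 4) : (cod x : ℕ) = x.2 + 4 * x.1 := rfl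

theorem cod_inj {k : ℕ} {x y : Fin k × Fin 4} (h : (cod x : ℕ) = cod y) : x = y :=
  finProdFinEquiv.injective (Fin.ext h)

theorem cod_fst {k : ℕ} {x y : Fin k × Fin 4} : x.1 = y.1 ↔ (cod x : ℕ) / 4 = (cod y : ℕ) / 4 := by
  rw [cod_val, cod_val]
  have h1 := x.2.2
  have h2 := y.2.2
  constructor
  · intro h; rw [h]; omega
  · intro h; apply Fin.ext; omega

/-- The point with a given code. -/
def pt (U : List (List ℕ)) (hU : ∀ i j : Fin (k * 4), ent U i j < k * 4)
    (x y : Fin k × Fin 4) : Fin k × Fin 4 :=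
  finProdFinEquiv.symm ⟨ent U (cod x) (cod y), hU _ _⟩

theorem cod_pt (U : List (List ℕ))
    (hU : ∀ i j : Fin (k * 4), ent U i j < k * 4) (x y : Fin k × Fin 4) :
    (cod (pt U hU x y) : ℕ) = ent U (cod x) (cod y) := by
  unfold pt
  rw [show ∀ a, cod (finProdFinEquiv.symm a : Fin k × Fin 4) = a from fun a =>
    finProdFinEquiv.apply_symm_apply a]

/-- The solution of a table. -/
def rr (h : Chk (k * 4) S T W V) (p : (Fin k × Fin 4) × (Fin k × Fin 4)) :
    (Fin k × Fin 4) × (Fin k × Fin 4) :=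
  (pt S h.ltS p.1 p.2, pt T h.ltT p.1 p.2)

theorem rr_sol (h : Chk (k * 4) S T W V) [NeZero k] : IsSolution (rr h) where
  nonempty := ⟨(0, 0)⟩
  braid := by
    rintro ⟨x, y, z⟩
    have hb := h.braid (cod x) (cod y) (cod z)
    refine Prod.ext ?_ (Prod.ext ?_ ?_)
    · apply cod_inj
      simpa [r12, r23, rr, cod_pt] using hb.1
    · apply cod_inj
      simpa [r12, r23, rr, cod_pt] using hb.2.1
    · apply cod_inj
      simpa [r12, r23, rr, cod_pt] using hb.2.2
  involutive := by
    rintro ⟨x, y⟩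
    refine Prod.ext ?_ ?_
    · apply cod_inj
      simpa [rr, cod_pt] using h.inv1 (cod x) (cod y)
    · apply cod_inj
      simpa [rr, cod_pt] using h.inv2 (cod x) (cod y)
  sigma_bijective x := by
    rw [← Finite.injective_iff_bijective]
    intro y z hyz
    have h1 : (cod (pt S h.ltS x y) : ℕ) = cod (pt S h.ltS x z) := by
      have : pt S h.ltS x y = pt S h.ltS x z := hyz
      rw [this]
    rw [cod_pt, cod_pt] at h1
    have h2 := h.left (cod x) (cod y) (cod z) h1
    exact cod_inj (congrArg Fin.val h2)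
  tau_bijective y := by
    rw [← Finite.injective_iff_bijective]
    intro x z hxz
    have h1 : (cod (pt T h.ltT x y) : ℕ) = cod (pt T h.ltT z y) := by
      have : pt T h.ltT x y = pt T h.ltT z y := hxz
      rw [this]
    rw [cod_pt, cod_pt] at h1
    have h2 := h.right (cod x) (cod z) (cod y) h1
    exact cod_inj (congrArg Fin.val h2)

theorem rr_blocks (h : Chk (k * 4) S T W V) [NeZero k] : AreBlocks (rr_sol h) := by
  have key : ∀ g ∈ permGroup (rr_sol h), ∀ a b : Fin k × Fin 4,
      a.1 = b.1 ↔ (g a).1 = (g b).1 := by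
    intro g hg
    induction hg using Subgroup.closure_induction with
    | mem g hg =>
      obtain ⟨x, rfl⟩ := hg
      intro a b
      have h1 : sigma (rr_sol h) x a = pt S h.ltS x a := rfl
      have h2 : sigma (rr_sol h) x b = pt S h.ltS x b := rfl
      rw [h1, h2, cod_fst, cod_fst, cod_pt, cod_pt]
      exact h.block (cod x) (cod a) (cod b)
    | one => intro a b; simp
    | mul g₁ g₂ _ _ ih₁ ih₂ =>
      intro a b
      rw [ih₂ a b, ih₁ (g₂ a) (g₂ b)]
      rfl
    | inv g _ ih =>
      intro a b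
      have := ih (g⁻¹ a) (g⁻¹ b)
      simpa using this.symm
  intro g hg y
  refine ⟨(g (y, 0)).1, ?_⟩
  ext x
  constructor
  · rintro ⟨a, ha, rfl⟩
    exact (key g hg a (y, 0)).mp ha
  · intro hx
    refine ⟨g⁻¹ x, ?_, by simp⟩
    have := (key g hg (g⁻¹ x) (y, 0)).mpr (by simpa using hx)
    exact this

theorem rr_simple (h : Chk (k * 4) S T W V) (hk : 2 ≤ k) [NeZero k] : IsSimple (rr h) := by
  refine ⟨⟨⟨(⟨0, by omega⟩, 0), (⟨1, by omega⟩, 0), by simp⟩⟩, ?_⟩
  intro X' r' f _ hf hom
  by_cases hinj : Function.Injective f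
  · exact Or.inl ⟨hinj, hf⟩
  right
  -- the relation `u ~ v` on codes
  let R : ℕ → ℕ → Prop := fun u v => ∃ x y : Fin k × Fin 4, (cod x : ℕ) = u ∧ (cod y : ℕ) = v ∧
    f x = f y
  have hS : ∀ x y : Fin k × Fin 4, f (pt S h.ltS x y) = (r' (f x, f y)).1 := by
    intro x y
    have := congrArg Prod.fst (hom (x, y))
    exact this
  have hcod : ∀ c, c < k * 4 → ∃ x : Fin k × Fin 4, (cod x : ℕ) = c := by
    intro c hc
    exact ⟨finProdFinEquiv.symm ⟨c, hc⟩,
      congrArg Fin.val (finProdFinEquiv.apply_symm_apply (⟨c, hc⟩ : Fin (k * 4)))⟩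
  have hstep : ∀ (p : ℕ × ℕ) (c : ℕ), c < 2 * (k * 4) → R p.1 p.2 →
      R (stp (k * 4) S p c).1 (stp (k * 4) S p c).2 := by
    rintro ⟨u, v⟩ c hc ⟨x, y, rfl, rfl, hxy⟩
    unfold stp
    split_ifs with hlt
    · obtain ⟨z, rfl⟩ := hcod c hlt
      refine ⟨pt S h.ltS z x, pt S h.ltS z y, cod_pt _ _ _ _, cod_pt _ _ _ _, ?_⟩
      rw [hS, hS, hxy]
    · obtain ⟨z, hz⟩ := hcod (c - k * 4) (by omega)
      rw [← hz]
      refine ⟨pt S h.ltS x z, pt S h.ltS y z, cod_pt _ _ _ _, cod_pt _ _ _ _, ?_⟩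
      rw [hS, hS, hxy]
  have hfold : ∀ (l : List ℕ) (p : ℕ × ℕ), (∀ c ∈ l, c < 2 * (k * 4)) → R p.1 p.2 →
      R (l.foldl (stp (k * 4) S) p).1 (l.foldl (stp (k * 4) S) p).2 := by
    intro l
    induction l with
    | nil => intro p _ hp; exact hp
    | cons c l ih =>
      intro p hl hp
      rw [List.foldl_cons]
      exact ih _ (fun d hd => hl d (List.mem_cons_of_mem _ hd))
        (hstep p c (hl c List.mem_cons_self) hp)
  have h01 : R 0 1 := by
    simp only [Function.Injective, not_forall] at hinj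
    obtain ⟨x, y, hxy, hne⟩ := hinj
    have hne' : cod x ≠ cod y := fun he => hne (cod_inj (congrArg Fin.val he))
    obtain ⟨h1, h2⟩ := h.words (cod x) (cod y) hne'
    have := hfold _ (((cod x : ℕ), (cod y : ℕ))) h2 ⟨x, y, rfl, rfl, hxy⟩
    rw [h1] at this
    exact this
  obtain ⟨z, hz⟩ := hcod 0 (by omega)
  have hall : ∀ x : Fin k × Fin 4, f x = f z := by
    intro x
    by_cases hx : (cod x : ℕ) = 0
    · rw [cod_inj (hx.trans hz.symm)]
    obtain ⟨h1, h2⟩ := h.wordsV (cod x) hx
    have := hfold _ (0, 1) h2 h01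
    rw [h1] at this
    obtain ⟨a, b, ha, hb, hab⟩ := this
    have ha' : a = z := cod_inj (ha.trans hz.symm)
    have hb' : b = x := cod_inj hb
    rw [← ha', ← hb', hab]
  have hsub : Subsingleton X' := by
    refine ⟨fun a b => ?_⟩
    obtain ⟨x, rfl⟩ := hf a
    obtain ⟨y, rfl⟩ := hf b
    rw [hall x, hall y]
  rw [Nat.card_eq_one_iff_unique]
  exact ⟨hsub, ⟨f z⟩⟩

end Table

/-- There are finite simple solutions on `Y × Z` for which the sets `{y} × Z` are blocks of
imprimitivity for the permutation group and `|Z|` does not divide `|Y|`; for instance there are such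
solutions with `|Y| = 2`, `|Z| = 4` and with `|Y| = 3`, `|Z| = 4`. -/
theorem result :
    (∃ (Y Z : Type) (_ : Fintype Y) (_ : Fintype Z), HasSimpleSolution Y Z ∧
      1 < Fintype.card Y ∧ 1 < Fintype.card Z ∧ ¬ Fintype.card Z ∣ Fintype.card Y) ∧
    HasSimpleSolution (Fin 2) (Fin 4) ∧ HasSimpleSolution (Fin 3) (Fin 4) := by
  have h2 : HasSimpleSolution (Fin 2) (Fin 4) :=
    ⟨rr (k := 2) chk8, rr_sol (k := 2) chk8, rr_simple (k := 2) chk8 le_rfl,
      rr_blocks (k := 2) chk8⟩
  have h3 : HasSimpleSolution (Fin 3) (Fin 4) :=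
    ⟨rr (k := 3) chk12, rr_sol (k := 3) chk12, rr_simple (k := 3) chk12 (by norm_num),
      rr_blocks (k := 3) chk12⟩
  refine ⟨⟨Fin 3, Fin 4, inferInstance, inferInstance, h3, ?_, ?_, ?_⟩, h2, h3⟩ <;>
    simp [Fintype.card_fin]

end Pool.Agent.Results.MP_9f168b_al.BlocksNotDividing
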